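import Pool.Agent.V1157.BBF.AJChain

/-!
# Existence of Bloch-Beilinson filtrations in terms of the kernels of the Abel-Jacobi maps
-/

open CategoryTheory AlgebraicGeometry

universe u v w

namespace Pool.Agent.Results.MP_08891c_ag.AbelJacobiKernels

open Pool.Agent.H914 Pool.Agent.H914.VarClass Pool.Agent.H914.VarClass.Obj Pool.Agent.W492.BB
  Pool.Agent.TH133 Pool.Agent.Y148.BB Pool.Agent.V1157.BBF

/-- For a class `𝒱` of varieties closed under products, their Chow groups `C`, a Weil cohomology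
`H` and the kernels `N` of the Abel-Jacobi maps: a Bloch-Beilinson filtration exists if and only if
all classes in `CH^j` obtained from classes in the kernels of Abel-Jacobi maps by `j - 1`
correspondences `Γ_2, …, Γ_j`, the map `Γ_r` on `CH^l(Z)` being zero on `H^(2l-r)(Z)`, are zero.
Under the Kunneth standard conjecture for `𝒱` it is enough that the compositions of
self-correspondences `Γ_2, …, Γ_j` of `X`, with `Γ_r` zero on `H^(2j-r)(X)`, vanish on the kernel of
the Abel-Jacobi map of `CH^j(X)`, and the filtration is given by compositions. -/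
theorem result {k : Type u} [Field k] (𝒱 : VarClass k) (C : TheoryData.{u, v, 0} 𝒱 ℚ)
    [IsChowProj C] (K : Type w) [Field K] (H : WeilTheoryData.{u, v, w} C K) [IsWeilProj H]
    (N : ∀ X : 𝒱.Obj, ℕ → Submodule ℚ (C.A X)) (hN : IsAbelJacobiKernel H N) :
    ((∃ F, IsBlochBeilinsonOn H N (fun _ => True) F) ↔
      ∀ (X : 𝒱.Obj) (j : ℕ) (z : C.A X), AJChain H N (j + 1) X j z → z = 0) ∧
    (KunnethConjecture H →
      ((∃ F, IsBlochBeilinsonOn H N (fun _ => True) F) ↔ AJVanishing H N) ∧
      ∀ F, IsBlochBeilinsonOn H N (fun _ => True) F → ∀ (X : 𝒱.Obj) (j ν : ℕ) (z : C.A X),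
        z ∈ F X j ν ↔ ∃ (Γ : ℕ → C.A (X.prod X)) (y : C.A X),
          Lowering H j ν Γ ∧ C.Deg j y ∧ actSeq C Γ ν y = z) :=
  ⟨exists_iff_chain hN, fun hK => ⟨exists_iff_AJ hK hN,
    fun _ hF X j ν z => mem_iff_AJ hK hN hF X j ν z⟩⟩

end Pool.Agent.Results.MP_08891c_ag.AbelJacobiKernels
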