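import Pool.Agent.V1157.WF.AJ

/-!
# Bloch-Beilinson filtrations: errors of bounded dimension vanish

`𝒱` is a class of varieties such as that of all smooth connected complex projective ones, `C` their
rational Chow groups, `H` a Weil cohomology, and `N X j ⊆ CH^j(X)` the kernel of the Abel-Jacobi
map. Consider filtrations `F^ν CH^j(X)` of the Chow groups of all `X`, with `F^0` everything and
`F^1` homologically trivial, which are respected by all correspondences (condition 3). If the
conditions 1, 2, 4 of a Bloch-Beilinson filtration hold up to errors of bounded dimension, then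
they hold without errors. The errors are
* for condition 1: the dimensions of `CH^j(X)_hom / F^1`, of `(F^2 + N) / N` and `(F^2 + N) / F^2`;
* for condition 2: the dimension of `F^{j+1} CH^j(X)`;
* for condition 4: for each `z ∈ F^ν CH^j(X)` the dimension of the space spanned in `Gr^ν CH^i(Y)` by
  all `Γ_* z`, with `Γ ∈ CH^*(X × Y)` zero on `H^{2j-ν}(X)`;
and they are to be bounded over all `X` of a given dimension, in the last case over all `Y` of a
given dimension, with a bound which may depend on `X` and `z`.

Proof: let `x ∈ CH^j(S)` be homologically trivial, and let `V ⊆ S^N` be a complete intersection of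
dimension `dim S`, with projections `p_i` to `S`. Then `p_j_* p_i^* x` is zero for `i ≠ j` and a
multiple of `x` for `i = j`. So an error `x` on `S` gives `N` linearly independent errors `p_i^* x`
on `V`.
-/

open CategoryTheory AlgebraicGeometry

universe u v w

namespace Pool.Agent.Results.MP_08891c_ag.BoundedErrors

open Pool.Agent.H914 Pool.Agent.H914.VarClass Pool.Agent.H914.VarClass.Obj Pool.Agent.W492.BB
  Pool.Agent.TH133 Pool.Agent.Y148.BB Pool.Agent.V1157.BD Pool.Agent.V1157.WF

theorem result {k : Type u} [Field k] {𝒱 : VarClass k} {C : TheoryData.{u, v, 0} 𝒱 ℚ}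
    [IsChowProj C] {K : Type w} [Field K] (H : WeilTheoryData.{u, v, w} C K) [IsWeilProj H]
    (N : ∀ X : 𝒱.Obj, ℕ → Submodule ℚ (C.A X)) (hN : IsAbelJacobiKernel H N)
    (hP : ∀ (S : 𝒱.Obj) (M : ℕ), HasPower C S.dim M S)
    (F : ∀ X : 𝒱.Obj, ℕ → ℕ → Submodule ℚ (C.A X)) :
    IsBlochBeilinsonOn H N (fun _ => True) F ↔ IsBoundedBB H N F :=
  ⟨bounded_of_bb, bb_of_bounded hN hP⟩

end Pool.Agent.Results.MP_08891c_ag.BoundedErrors
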