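import Pool.Agent.V11244.BB.One

/-!
# Bloch-Beilinson filtrations: one variety and one codimension at a time

`𝒱` is a class of smooth projective varieties closed under products (such as that of all smooth
connected complex projective ones), `C` their rational Chow groups, `H` a Weil cohomology, and
`N X j ⊆ CH^j(X)` the kernel of the Abel-Jacobi map. A Bloch-Beilinson filtration is a system of
filtrations of the Chow groups of all varieties simultaneously, satisfying conditions 1-4 for the
correspondences between any two of them. We show that the varieties can be treated one at a time: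
such a system exists if (and only if) on each variety `P` alone there is a filtration satisfying
conditions 1-4 for the self-correspondences of `P`, and it is enough to consider the varieties `P`
of a class `S` such that the Chow groups of every variety are a retract of those of some `P` in `S`
(for instance because `P` dominates the variety). No standard conjecture is used.

Proof: a class `z ∈ CH^j(X)` which violates the criterion of `V1157.BBF.exists_iff_chain` is
obtained from the kernel of an Abel-Jacobi map by correspondences between finitely many varieties;
they are all retracts of their product, so of one `P` in `S`, and the correspondences can be carried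
over to self-correspondences of `P`.
-/

open CategoryTheory AlgebraicGeometry

universe u v w

namespace Pool.Agent.Results.MP_08891c_ag.OneVarietyAtATime

open Pool.Agent.H914 Pool.Agent.H914.VarClass Pool.Agent.H914.VarClass.Obj Pool.Agent.W492.BB
  Pool.Agent.TH133 Pool.Agent.Y148.BB Pool.Agent.V11244.BB

/-- **One variety and one codimension at a time.**
(A) A Bloch-Beilinson filtration on the Chow groups of all varieties simultaneously exists if and
only if for every variety `P` there is a filtration of the Chow groups of `P` alone which satisfies
conditions 1, 2 and, for the self-correspondences of `P`, conditions 3 and 4 (`IsBBOne`).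
(B) Let `S` be a set of varieties such that the Chow groups of every variety `X` are a retract of
those of some `P` in `S`. Equivalent are:
1. a Bloch-Beilinson filtration on all varieties simultaneously exists;
2. for every `P` in `S` there is one on `P` alone;
3. for every `P` in `S` and every `j ≥ 2` there are subspaces `G l ν ⊆ CH^*(P)`, `ν ≥ 2`, with
   `ker AJ ⊆ G l 2`, condition 4 (every correspondence `Γ : CH^l(P) → CH^i(P)` which is zero on
   `H^(2l-ν)(P)` maps `G l ν` to `G i (ν + 1)`) and `G j (j + 1) = 0`, but possibly without the
   other properties, and depending on `j`;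
4. for every `P` in `S` and `j ≥ 2` all classes in `CH^j(P)` obtained from the kernel of an
   Abel-Jacobi map of `P` by `j - 1` self-correspondences `Γ_2, …, Γ_j` of `P` (of any degrees),
   `Γ_r`, applied to a class in `CH^l(P)`, being zero on `H^(2l-r)(P)`, are zero. -/
theorem result {k : Type u} [Field k] (𝒱 : VarClass k) (C : TheoryData.{u, v, 0} 𝒱 ℚ)
    [IsChowProj C] (K : Type w) [Field K] (H : WeilTheoryData.{u, v, w} C K) [IsWeilProj H]
    (N : ∀ X : 𝒱.Obj, ℕ → Submodule ℚ (C.A X)) (hN : IsAbelJacobiKernel H N) :
    ((∃ F, IsBlochBeilinsonOn H N (fun _ => True) F) ↔
      ∀ P : 𝒱.Obj, ∃ G : ℕ → ℕ → Submodule ℚ (C.A P), IsBBOne H N P G) ∧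
    ∀ S : 𝒱.Obj → Prop, (∀ X : 𝒱.Obj, ∃ P, S P ∧ IsRetract C X P) →
      List.TFAE [
        ∃ F, IsBlochBeilinsonOn H N (fun _ => True) F,
        ∀ P, S P → ∃ G, IsBBOne H N P G,
        ∀ P, S P → ∀ j : ℕ, 2 ≤ j → ∃ G, IsWeakBBOne H N P j G,
        ∀ P, S P → ∀ (j : ℕ) (z : C.A P), 2 ≤ j → SelfChain H N P (j + 1) j z → z = 0] := by
  refine ⟨?_, fun S hS => tfae_one hN S hS⟩
  have h := (tfae_one hN (fun _ => True) fun X => ⟨X, trivial, IsRetract.refl X⟩).out 0 1
  rw [h]
  exact ⟨fun h P => h P trivial, fun h P _ => h P⟩

end Pool.Agent.Results.MP_08891c_ag.OneVarietyAtATime
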