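import Pool.Agent.H255R.MR.BBMain

/-!
# Bloch-Beilinson filtrations for products of regular surfaces and for products of curves
-/

open CategoryTheory AlgebraicGeometry

universe u v w

namespace Pool.Agent.Results.MP_08891c_ag.RegularSurfaces

open Pool.Agent.H914 Pool.Agent.H914.VarClass Pool.Agent.H914.VarClass.Obj Pool.Agent.W492.BB
  Pool.Agent.W550.Corr Pool.Agent.TH133 Pool.Agent.H255R.HR Pool.Agent.H255R.MR

/-- Consider the smooth projective complex varieties, their Chow groups with rational
coefficients, their singular cohomology `H`, and the cycle classes `φ` in Deligne cohomology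
`D` (their kernel is the kernel of the Abel-Jacobi maps).

Let `𝒞` be a class of curves with `HasGalQuotients` (for example all curves, or one hyperelliptic
curve). For all varieties `U` and all `N` the following statements are equivalent.

1. A Bloch-Beilinson filtration exists for the class of the varieties `U × A` and `U × A × S`, where
`A` is a product of at most `N` regular surfaces dominated by products of two curves in `𝒞`, and `S`
is a curve in `𝒞`. (The conditions are those for the varieties in the class, and for all
correspondences between them.)
2. The same without the condition that the surfaces be regular.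
3. A Bloch-Beilinson filtration exists for the class of the varieties `U × W`, where `W` is a
product of at most `2 N + 1` curves in `𝒞`.
4. A Bloch-Beilinson filtration exists for the class of all varieties which are dominated by
varieties `U × W` as in 3. -/
theorem result {k : Type u} [Field k] {𝒱 : VarClass k} (C : TheoryData.{u, v, 0} 𝒱 ℚ)
    [IsChowProj C] (hC : IsModTheory (chowMod C)) {F : Type w} [Field F] [CharZero F]
    (H : WeilTheoryData.{u, v, w} C F) [IsWeilProj H] (D : ModData.{u, v, v} C)
    (hD : IsModTheory D) (φ : ∀ X, C.A X → D.A X) (hφ : IsTransformation (chowMod C) D φ)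
    (𝒞 : 𝒱.Obj → Prop) (hG : HasGalQuotients.{u, v, w, v} H 𝒞) (U : 𝒱.Obj) (N : ℕ) :
    List.TFAE [
      HasBB H φ (ProductsAndCurve U (IsRegDominated.{u, v, w, v} H 𝒞) 𝒞 N),
      HasBB H φ (ProductsAndCurve U (IsDominated.{u, v, v} C 𝒞) 𝒞 N),
      HasBB H φ (Products U 𝒞 (2 * N + 1)),
      HasBB H φ (Dominated C U 𝒞 (2 * N + 1))] :=
  bb_tfae hC hD hφ hG U N

end Pool.Agent.Results.MP_08891c_ag.RegularSurfaces
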